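import Pool.Agent.Lib.MP_39c2b7_co.Interfaces

/-!
# Strong arboricity: assembling the checks of many patterns
-/

namespace StrongArb.H56

open StrongArb

/-- all certificates of the list are correct, the first one having index `i` -/
def AllOk (links : List (List (List ℕ))) : List PatCert → ℕ → Prop
  | [], _ => True
  | c :: t, i => (c.certB links i = true ∧ c.P.Dominated) ∧ AllOk links t (i + 1)

theorem allOk_append {links : List (List (List ℕ))} {s t : List PatCert} {i : ℕ}
    (h1 : AllOk links s i) (h2 : AllOk links t (i + s.length)) : AllOk links (s ++ t) i := by
  induction s generalizing i with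
  | nil => simpa using h2
  | cons c s ih =>
    refine ⟨h1.1, ih h1.2 ?_⟩
    have : i + (c :: s).length = i + 1 + s.length := by simp; omega
    rw [← this]; exact h2

theorem allOk_get {links : List (List (List ℕ))} {s : List PatCert} {i : ℕ}
    (h : AllOk links s i) : ∀ j, ∀ hj : j < s.length,
      (s[j]).certB links (i + j) = true ∧ (s[j]).P.Dominated := by
  induction s generalizing i with
  | nil => intro j hj; simp at hj
  | cons c s ih =>
    intro j hj
    cases j with
    | zero => simpa using h.1
    | succ j =>
      have := ih h.2 j (by simpa using hj)
      have e : i + 1 + j = i + (j + 1) := by omega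
      rw [e] at this
      simpa using this

theorem excluded_of_allOk (hC : CertStatement) (certs : List PatCert)
    (h : AllOk (certs.map (fun c => c.P.links)) certs 0) :
    ∀ (V : Type) (G : SimpleGraph V) (C : List V) (X : Set V), MinCE G → Region G C X →
      ∀ c ∈ certs, Excluded G X c.P.entries :=
  hC certs (fun i hi => by simpa using allOk_get h i hi)

end StrongArb.H56
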