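import Pool.Agent.Lib.MP_39c2b7_co.Defs

/-!
# Strong arboricity: from good maps to edge colourings (cycle form)
-/

namespace StrongArb.H56

open StrongArb SimpleGraph

/-- two points lie on a line of one of the four slopes -/
theorem exists_slope (a b : Pt) : ∃ s : Fin 4, form s a = form s b := by
  revert a b; decide

theorem form_eq_of_reachable {V : Type} {G : SimpleGraph V} {p : V → Pt} {s : Fin 4} {u v : V}
    (h : (slopeGraph G p s).Reachable u v) : form s (p u) = form s (p v) := by
  obtain ⟨w⟩ := h
  induction w with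
  | nil => rfl
  | cons h _ ih => exact h.2.trans ih

theorem colour_of_good {V : Type} {G : SimpleGraph V} {p : V → Pt} (hp : Good G p) :
    ∃ c : G.edgeSet → Fin 4, ∀ (v : V) (C : G.Walk v v), C.IsCycle → ∀ e ∈ C.edges,
      ¬ ∃ i, ∀ f, ∀ hf : f ∈ C.edges, f ≠ e → c ⟨f, C.edges_subset_edgeSet hf⟩ = i := by
  classical
  have hex : ∀ e : Sym2 V, ∃ s : Fin 4, ∀ a ∈ e, ∀ b ∈ e, form s (p a) = form s (p b) := by
    intro e
    induction e using Sym2.ind with
    | _ x y =>
      obtain ⟨s, hs⟩ := exists_slope (p x) (p y)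
      refine ⟨s, ?_⟩
      intro a ha b hb
      rw [Sym2.mem_iff] at ha hb
      rcases ha with rfl | rfl <;> rcases hb with rfl | rfl <;> first | rfl | exact hs | exact hs.symm
  choose sl hsl using hex
  refine ⟨fun e => sl e.1, ?_⟩
  rintro v C hC e he ⟨i, hi⟩
  -- the graph of the edges of the cycle
  let H : SimpleGraph V := SimpleGraph.fromEdgeSet {f | f ∈ C.edges}
  have hCH : ∀ f ∈ C.edges, f ∈ H.edgeSet := by
    intro f hf
    have hfG := C.edges_subset_edgeSet hf
    induction f using Sym2.ind with
    | _ x y =>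
      rw [SimpleGraph.mem_edgeSet, SimpleGraph.fromEdgeSet_adj]
      exact ⟨hf, (G.mem_edgeSet.1 hfG).ne⟩
  have hcyc : (C.transfer H hCH).IsCycle := hC.transfer hCH
  induction e using Sym2.ind with
  | _ x y =>
    have he' : s(x, y) ∈ (C.transfer H hCH).edges := by rw [Walk.edges_transfer]; exact he
    have hreach := (adj_and_reachable_delete_edges_iff_exists_cycle (G := H) (v := x) (w := y)).2
      ⟨v, _, hcyc, he'⟩
    have hle : H \ SimpleGraph.fromEdgeSet {s(x, y)} ≤ slopeGraph G p i := by
      intro a b hab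
      rw [SimpleGraph.sdiff_adj, SimpleGraph.fromEdgeSet_adj, SimpleGraph.fromEdgeSet_adj] at hab
      have h1 : s(a, b) ∈ C.edges := hab.1.1
      have h2 : s(a, b) ≠ s(x, y) := fun h => hab.2 ⟨h, hab.1.2⟩
      have h3 := hi _ h1 h2
      have h4 := C.edges_subset_edgeSet h1
      refine ⟨G.mem_edgeSet.1 h4, ?_⟩
      have := hsl s(a, b) a (Sym2.mem_mk_left a b) b (Sym2.mem_mk_right a b)
      rw [← h3]; exact this
    have hxy : form i (p x) = form i (p y) := form_eq_of_reachable (hreach.2.mono hle)
    have hall : ∀ f ∈ C.edges, f ∈ (slopeGraph G p i).edgeSet := by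
      intro f hf
      by_cases hfe : f = s(x, y)
      · subst hfe
        exact ⟨G.mem_edgeSet.1 (C.edges_subset_edgeSet hf), hxy⟩
      · have h3 := hi f hf hfe
        induction f using Sym2.ind with
        | _ a b =>
          refine ⟨G.mem_edgeSet.1 (C.edges_subset_edgeSet hf), ?_⟩
          have := hsl s(a, b) a (Sym2.mem_mk_left a b) b (Sym2.mem_mk_right a b)
          rw [← h3]; exact this
    exact hp.forest i (C.transfer _ hall) (hC.transfer hall)

end StrongArb.H56
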