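import Pool.Agent.Lib.MP_39c2b7_co.Interfaces2
import Pool.Agent.Lib.MP_39c2b7_co.H7.Frame
import Pool.Agent.Lib.MP_39c2b7_co.H7.Glue
import Pool.Agent.Lib.MP_39c2b7_co.H15.Hubx
import Pool.Agent.Lib.MP_39c2b7_co.H16.Sep
import Pool.Agent.Lib.MP_39c2b7_co.H17.Asm
import Pool.Agent.Lib.MP_39c2b7_co.H19.Wfc
import Pool.Agent.Lib.MP_39c2b7_co.H22.Lapi
import Pool.Agent.Lib.MP_39c2b7_co.H27.PDual
import Pool.Agent.Lib.MP_39c2b7_co.H27.Disch
import Pool.Agent.Lib.MP_39c2b7_co.H22.Geo
import Pool.Agent.Lib.MP_39c2b7_co.H29.Small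
import Pool.Agent.Lib.MP_39c2b7_co.H29.Ext
import Pool.Agent.Lib.MP_39c2b7_co.H36.Sound
import Pool.Agent.Lib.MP_39c2b7_co.H38.Tjoin
import Pool.Agent.Lib.MP_39c2b7_co.H38.Dsplit
import Pool.Agent.Lib.MP_39c2b7_co.H38.Nok5
import Pool.Agent.Lib.MP_39c2b7_co.H39.No4
import Pool.Agent.Lib.MP_39c2b7_co.H48.Region
import Pool.Agent.Lib.MP_39c2b7_co.H59.DMinor
import Pool.Agent.Lib.MP_39c2b7_co.H59.Total
import Pool.Agent.Lib.MP_39c2b7_co.H70.Hseq
import Pool.Agent.Lib.MP_39c2b7_co.H81.Match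
import Pool.Agent.Lib.MP_39c2b7_co.H82.Seuler
import Pool.Agent.Lib.MP_39c2b7_co.H83.Link
import Pool.Agent.Lib.MP_39c2b7_co.H87.MinCE
import Pool.Agent.Lib.MP_39c2b7_co.H94.Fallb
import Pool.Agent.Lib.MP_39c2b7_co.H99.Dbound
import Pool.Agent.Lib.MP_39c2b7_co.H56.AllOk

/-!
# Strong arboricity of planar graphs: the theorem, from the data
-/

namespace StrongArb.H56

open StrongArb

/-- All finite checks together. -/
structure DataOk (T : WTable) (M : ℕ) (cs : List HubCert) (certs : List PatCert) : Prop where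
  valid : T.Valid M
  hub : ∀ c ∈ cs, c.okB (certs.map (fun c => c.P.links)) = true ∧ c.pat < certs.length
  low4 : LowAt cs 4 2
  low5 : LowAt cs 5 1
  comb : ∀ D, 7 ≤ D → CombAt T M cs D
  pats : AllOk (certs.map (fun c => c.P.links)) certs 0
  dom44 : P44.Dominated
  dom45 : P45.Dominated

theorem core {T : WTable} {M : ℕ} {cs : List HubCert} {certs : List PatCert}
    (hd : DataOk T M cs certs)
    (V : Type) [Finite V] (G : SimpleGraph V) (hP : IsPlanar G) : ∃ p, Good G p := by
  by_contra hbad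
  have hD : HasDual G := H27.pdual V G hP
  have hL : LinkApi := H22.lapi
  have hMin : MinCEStatement := H87.mince (H59.dminor H38.tjoin) H99.dbound
    (H83.link H38.dsplit) (H7.glue H7.frame H38.repl) H29.small
  obtain ⟨V', G', hCE⟩ := hMin ⟨V, inferInstance, G, hD, hbad⟩
  have hSound : SoundStatement := H36.sound H38.repl
  have hRegion : RegionStatement := H48.region (H16.sep H38.nok5 hL) H82.seuler
    (H39.no44 hSound hL H19.wfc hd.dom44) (H39.no45 hSound hL H19.wfc hd.dom45) hL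
  obtain ⟨C, X, hR⟩ := hRegion V' G' hCE
  have hCert : CertStatement := H17.asm H22.geo (H81.matchS hL) (H94.fallb hL) H19.wfc hSound
  have hHub : HubXStatement := H15.hubx (H70.hlink hL) (H29.ext hL) (H81.matchS hL) hL
  have hDis : DischargeStatement := H27.disch (H59.total hL) (H70.hseq hL) (H70.hlink hL)
    hHub hL
  exact hDis T M cs certs hd.valid hd.hub hd.low4 hd.low5 hd.comb V' G' C X hCE hR
    (excluded_of_allOk hCert certs hd.pats V' G' C X hCE hR)

/-- planar graphs have strongly woody colourings with four colours -/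
theorem core_colouring {T : WTable} {M : ℕ} {cs : List HubCert} {certs : List PatCert}
    (hd : DataOk T M cs certs)
    (V : Type) [Finite V] (G : SimpleGraph V) (hP : IsPlanar G) :
    ∃ col : Sym2 V → Fin 4, StronglyWoody G col :=
  H38.col V G (core hd V G hP)

end StrongArb.H56
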