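import Pool.Agent.Lib.MP_39c2b7_co.H56.Core
import Pool.Agent.Lib.MP_39c2b7_co.H56.Colour
import Pool.Agent.Lib.MP_39c2b7_co.H69.DomAll
import Pool.Agent.Lib.MP_39c2b7_co.H44.Deliver
import Pool.Agent.Lib.MP_39c2b7_co.Data.All

/-!
# Strong arboricity of planar graphs: all data together
-/

namespace StrongArb.H56

open StrongArb StrongArb.Data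

theorem allOk : AllOk (certs.map (fun c => c.P.links)) certs 0 := by
  have hF : FrameStatement := H7.frame
  rw [certs_links]
  exact
    ⟨⟨b0, H69.dom_0 hF⟩,
    ⟨⟨b1, H69.dom_1 hF⟩,
    ⟨⟨b2, H69.dom_2 hF⟩,
    ⟨⟨b3, H69.dom_3 hF⟩,
    ⟨⟨b4, H69.dom_4 hF⟩,
    ⟨⟨b5, H69.dom_5 hF⟩,
    ⟨⟨b6, H69.dom_6 hF⟩,
    ⟨⟨b7, H69.dom_7 hF⟩,
    ⟨⟨b8, H69.dom_8 hF⟩,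
    ⟨⟨b9, H69.dom_9 hF⟩,
    ⟨⟨b10, H69.dom_10 hF⟩,
    ⟨⟨b11, H69.dom_11 hF⟩,
    ⟨⟨b12, H69.dom_12 hF⟩,
    ⟨⟨b13, H69.dom_13 hF⟩,
    ⟨⟨b14, H69.dom_14 hF⟩,
    ⟨⟨b15, H69.dom_15 hF⟩,
    ⟨⟨b16, H69.dom_16 hF⟩,
    ⟨⟨b17, H69.dom_17 hF⟩,
    ⟨⟨b18, H69.dom_18 hF⟩,
    ⟨⟨b19, H69.dom_19 hF⟩,
    ⟨⟨b20, H69.dom_20 hF⟩,
    ⟨⟨b21, H69.dom_21 hF⟩,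
    ⟨⟨b22, H69.dom_22 hF⟩,
    ⟨⟨b23, H69.dom_23 hF⟩,
    ⟨⟨b24, H69.dom_24 hF⟩,
    ⟨⟨b25, H69.dom_25 hF⟩,
    ⟨⟨b26, H69.dom_26 hF⟩,
    ⟨⟨b27, H69.dom_27 hF⟩,
    ⟨⟨b28, H69.dom_28 hF⟩,
    ⟨⟨b29, H69.dom_29 hF⟩,
    ⟨⟨b30, H69.dom_30 hF⟩,
    ⟨⟨b31, H69.dom_31 hF⟩,
    ⟨⟨b32, H69.dom_32 hF⟩,
    ⟨⟨b33, H69.dom_33 hF⟩,
    ⟨⟨b34, H69.dom_34 hF⟩,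
    ⟨⟨b35, H69.dom_35 hF⟩,
    ⟨⟨b36, H69.dom_36 hF⟩,
    ⟨⟨b37, H69.dom_37 hF⟩,
    ⟨⟨b38, H69.dom_38 hF⟩,
    ⟨⟨b39, H69.dom_39 hF⟩,
    ⟨⟨b40, H69.dom_40 hF⟩,
    ⟨⟨b41, H69.dom_41 hF⟩,
    ⟨⟨b42, H69.dom_42 hF⟩,
    ⟨⟨b43, H69.dom_43 hF⟩,
    ⟨⟨b44, H69.dom_44 hF⟩,
    ⟨⟨b45, H69.dom_45 hF⟩,
    ⟨⟨b46, H69.dom_46 hF⟩,
    ⟨⟨b47, H69.dom_47 hF⟩,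
    ⟨⟨b48, H69.dom_48 hF⟩,
    ⟨⟨b49, H69.dom_49 hF⟩,
    ⟨⟨b50, H69.dom_50 hF⟩,
    ⟨⟨b51, H69.dom_51 hF⟩,
    ⟨⟨b52, H69.dom_52 hF⟩,
    ⟨⟨b53, H69.dom_53 hF⟩,
    ⟨⟨b54, H69.dom_54 hF⟩,
    ⟨⟨b55, H69.dom_55 hF⟩,
    ⟨⟨b56, H69.dom_56 hF⟩,
    ⟨⟨b57, H69.dom_57 hF⟩,
    ⟨⟨b58, H69.dom_58 hF⟩,
    ⟨⟨b59, H69.dom_59 hF⟩,
    ⟨⟨b60, H69.dom_60 hF⟩,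
    ⟨⟨b61, H69.dom_61 hF⟩,
    ⟨⟨b62, H69.dom_62 hF⟩,
    ⟨⟨b63, H69.dom_63 hF⟩,
    ⟨⟨b64, H69.dom_64 hF⟩,
    ⟨⟨b65, H69.dom_65 hF⟩,
    ⟨⟨b66, H69.dom_66 hF⟩,
    ⟨⟨b67, H69.dom_67 hF⟩,
    ⟨⟨b68, H69.dom_68 hF⟩,
    ⟨⟨b69, H69.dom_69 hF⟩,
    ⟨⟨b70, H69.dom_70 hF⟩,
    ⟨⟨b71, H69.dom_71 hF⟩,
    ⟨⟨b72, H69.dom_72 hF⟩,
    ⟨⟨b73, H69.dom_73 hF⟩,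
    ⟨⟨b74, H69.dom_74 hF⟩,
    ⟨⟨b75, H69.dom_75 hF⟩,
    ⟨⟨b76, H69.dom_76 hF⟩,
    trivial⟩⟩⟩⟩⟩⟩⟩⟩⟩⟩⟩⟩⟩⟩⟩⟩⟩⟩⟩⟩⟩⟩⟩⟩⟩⟩⟩⟩⟩⟩⟩⟩⟩⟩⟩⟩⟩⟩⟩⟩⟩⟩⟩⟩⟩⟩⟩⟩⟩⟩⟩⟩⟩⟩⟩⟩⟩⟩⟩⟩⟩⟩⟩⟩⟩⟩⟩⟩⟩⟩⟩⟩⟩⟩⟩⟩⟩

theorem dataOk : DataOk H44.W 12 H44.cs certs where
  valid := H44.valid
  hub := by
    rw [certs_links]
    exact H44.hubok
  low4 := H44.low4
  low5 := H44.low5
  comb := H44.comb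
  pats := allOk
  dom44 := H69.p44_dominated H7.frame
  dom45 := H69.p45_dominated H7.frame

/-- every planar graph has a good map to the affine plane of order three -/
theorem good_of_planar (V : Type) [Finite V] (G : SimpleGraph V) (hP : IsPlanar G) :
    ∃ p, Good G p :=
  core dataOk V G hP

end StrongArb.H56
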